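import Pool.Agent.Helper70.SK.Stmts3

/-! CODE: the number of the sums of shifts. -/

namespace Pool.Agent.Helper70.SK

open Finset Pool.Agent.Helper70.DK MeasureTheory

open scoped Classical in
/-- weight of a letter -/
noncomputable def codeW (m B : ℕ) (p : ℕ × (Fin m → ℤ)) : ℝ :=
  if p.1 = 0 then (((2 * (B : ℝ)) ^ m)⁻¹) else if p.2 = 0 then 1 / (p.1 : ℝ) ^ 2 else 0

/-- the digits -/
noncomputable def codeD (m B : ℕ) : Finset (Fin m → ℤ) :=
  Fintype.piFinset (fun _ : Fin m => Finset.Ioo (-(B : ℤ)) B)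

theorem code_nonneg (m B : ℕ) (p : ℕ × (Fin m → ℤ)) : 0 ≤ codeW m B p := by
  unfold codeW
  split_ifs
  · positivity
  · positivity
  · exact le_refl _

theorem code_zero_mem (m B : ℕ) (hB : 2 ≤ B) : (0 : Fin m → ℤ) ∈ codeD m B := by
  unfold codeD
  rw [Fintype.mem_piFinset]
  intro c
  rw [Finset.mem_Ioo, Pi.zero_apply]
  omega

theorem code_inner_zero (m B : ℕ) (hB : 2 ≤ B) :
    ∑ d ∈ codeD m B, codeW m B (0, d) ≤ 1 := by
  have h1 : ∀ d ∈ codeD m B, codeW m B (0, d) = ((2 * (B : ℝ)) ^ m)⁻¹ := by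
    intro d _
    unfold codeW
    rw [if_pos rfl]
  rw [Finset.sum_congr rfl h1, Finset.sum_const, nsmul_eq_mul]
  have hB0 : (0 : ℝ) < 2 * (B : ℝ) := by
    have : (2 : ℝ) ≤ B := by exact_mod_cast hB
    linarith
  rw [← div_eq_mul_inv, div_le_one (by positivity)]
  have h2 : (codeD m B).card = (2 * B - 1) ^ m := by
    unfold codeD
    rw [Fintype.card_piFinset, Finset.prod_const, Finset.card_univ, Fintype.card_fin,
      Int.card_Ioo]
    congr 1
    omega
  rw [h2]
  push_cast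
  refine pow_le_pow_left₀ (Nat.cast_nonneg _) ?_ m
  have h3 : ((2 * B - 1 : ℕ) : ℝ) ≤ ((2 * B : ℕ) : ℝ) := by
    exact_mod_cast Nat.sub_le _ _
  push_cast at h3
  exact h3

theorem code_inner_pos (m B k : ℕ) (hB : 2 ≤ B) (hk : k ≠ 0) :
    ∑ d ∈ codeD m B, codeW m B (k, d) = 1 / (k : ℝ) ^ 2 := by
  rw [Finset.sum_eq_single (0 : Fin m → ℤ)]
  · unfold codeW
    rw [if_neg hk, if_pos rfl]
  · intro d _ hd
    unfold codeW
    rw [if_neg hk, if_neg hd]
  · intro h
    exact absurd (code_zero_mem m B hB) h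

theorem code_sum (m B : ℕ) (hB : 2 ≤ B) (j : ℕ) :
    ∑ k ∈ range (j + 2), ∑ d ∈ codeD m B, codeW m B (k, d) ≤ 3 - 1 / ((j : ℝ) + 1) := by
  induction j with
  | zero =>
    rw [Finset.sum_range_succ, Finset.sum_range_succ, Finset.sum_range_zero,
      code_inner_pos m B 1 hB one_ne_zero]
    have := code_inner_zero m B hB
    norm_num
    linarith
  | succ j ih =>
    rw [Finset.sum_range_succ, code_inner_pos m B (j + 2) hB (by omega)]
    have h1 : (0 : ℝ) < (j : ℝ) + 1 := by positivity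
    have h2 : 1 / ((j + 2 : ℕ) : ℝ) ^ 2 ≤ 1 / ((j : ℝ) + 1) - 1 / (((j + 1 : ℕ) : ℝ) + 1) := by
      push_cast
      rw [div_sub_div _ _ (by positivity) (by positivity), div_le_div_iff₀ (by positivity)
        (by positivity)]
      nlinarith
    linarith

theorem code_total (m B K : ℕ) (hB : 2 ≤ B) :
    ∑ t ∈ range (K + 1) ×ˢ codeD m B, codeW m B t ≤ 3 := by
  rw [Finset.sum_product]
  have h1 := code_sum m B hB K
  have h2 : ∑ k ∈ range (K + 1), ∑ d ∈ codeD m B, codeW m B (k, d) ≤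
      ∑ k ∈ range (K + 2), ∑ d ∈ codeD m B, codeW m B (k, d) := by
    refine Finset.sum_le_sum_of_subset_of_nonneg (Finset.range_mono (by omega)) ?_
    intro k _ _
    exact Finset.sum_nonneg fun d _ => code_nonneg m B _
  have h3 : (0 : ℝ) < 1 / ((K : ℝ) + 1) := by positivity
  linarith

theorem st_CODE : ST_CODE := by
  classical
  intro m B n Y β ω X kk dd θ hB hβ hY hdig hprod hcnt
  have hBR : (2 : ℝ) ≤ B := by exact_mod_cast hB
  have h2B : (1 : ℝ) ≤ 2 * (B : ℝ) := by linarith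
  obtain ⟨K, hK⟩ : ∃ K : ℕ, K = ∑ x ∈ X, ∑ i ∈ range n, kk i x := ⟨_, rfl⟩
  have hkK : ∀ x ∈ X, ∀ i < n, kk i x ≤ K := by
    intro x hx i hi
    rw [hK]
    exact (Finset.single_le_sum (f := fun i => kk i x) (fun _ _ => Nat.zero_le _)
      (Finset.mem_range.mpr hi)).trans
      (Finset.single_le_sum (f := fun x => ∑ i ∈ range n, kk i x) (fun _ _ => Nat.zero_le _) hx)
  obtain ⟨cd, hcd⟩ : ∃ cd : ω → Fin n → ℕ × (Fin m → ℤ), cd = fun x (i : Fin n) =>
      (kk (i : ℕ) x, if kk (i : ℕ) x = 0 then dd (i : ℕ) x else 0) := ⟨_, rfl⟩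
  obtain ⟨T, hT⟩ : ∃ T : Finset (ℕ × (Fin m → ℤ)), T = range (K + 1) ×ˢ codeD m B := ⟨_, rfl⟩
  -- the codes are in the finite product
  have hcdT : X.image cd ⊆ Fintype.piFinset (fun _ : Fin n => T) := by
    intro u hu
    obtain ⟨x, hx, rfl⟩ := Finset.mem_image.mp hu
    rw [Fintype.mem_piFinset]
    intro i
    rw [hT, hcd]
    refine Finset.mem_product.mpr ⟨?_, ?_⟩
    · exact Finset.mem_range.mpr (Nat.lt_succ_of_le (hkK x hx i i.2))
    · show (if kk i x = 0 then dd i x else 0) ∈ codeD m B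
      split_ifs
      · unfold codeD
        rw [Fintype.mem_piFinset]
        intro c
        have := (hdig x hx i i.2).2 c
        rw [Finset.mem_Ioo]
        exact abs_lt.mp this
      · exact code_zero_mem m B hB
  -- the weight of a code
  have hwt : ∀ u ∈ X.image cd,
      (Y ^ 2 * (2 * (B : ℝ)) ^ (m * β * n))⁻¹ ≤ ∏ i, codeW m B (u i) := by
    intro u hu
    obtain ⟨x, hx, rfl⟩ := Finset.mem_image.mp hu
    have h1 : ∏ i : Fin n, codeW m B (cd x i) = ∏ i ∈ range n,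
        ((max (kk i x) 1 : ℝ) ^ 2)⁻¹ * (if kk i x = 0 then ((2 * (B : ℝ)) ^ m)⁻¹ else 1) := by
      rw [Finset.prod_range]
      refine Finset.prod_congr rfl fun i _ => ?_
      rw [hcd]
      show codeW m B (kk i x, if kk i x = 0 then dd i x else 0) = _
      unfold codeW
      by_cases h0 : kk i x = 0
      · rw [if_pos h0, if_pos h0, h0]
        norm_num
      · rw [if_neg h0, if_neg h0, if_neg h0, if_pos rfl, mul_one]
        have h2 : (1 : ℝ) ≤ (kk i x : ℝ) := by exact_mod_cast Nat.one_le_iff_ne_zero.mpr h0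
        rw [max_eq_left h2, one_div]
    rw [h1, Finset.prod_mul_distrib, mul_inv]
    have h3 : (Y ^ 2)⁻¹ ≤ ∏ i ∈ range n, ((max (kk i x) 1 : ℝ) ^ 2)⁻¹ := by
      rw [Finset.prod_inv_distrib, Finset.prod_pow]
      have h4 : (0 : ℝ) < ∏ i ∈ range n, (max (kk i x) 1 : ℝ) :=
        Finset.prod_pos fun i _ => lt_of_lt_of_le one_pos (le_max_right _ _)
      exact inv_anti₀ (by positivity) (pow_le_pow_left₀ h4.le (hprod x hx) 2)
    have h5 : ((2 * (B : ℝ)) ^ (m * β * n))⁻¹ ≤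
        ∏ i ∈ range n, (if kk i x = 0 then ((2 * (B : ℝ)) ^ m)⁻¹ else 1) := by
      rw [Finset.prod_ite, Finset.prod_const, Finset.prod_const_one, mul_one, inv_pow]
      refine inv_anti₀ (by positivity) ?_
      rw [← pow_mul, ← Real.rpow_natCast]
      refine Real.rpow_le_rpow_of_exponent_le h2B ?_
      have h6 := hcnt x hx
      have h7 : (0 : ℝ) ≤ m := Nat.cast_nonneg m
      push_cast
      calc (m : ℝ) * (((Finset.range n).filter (fun i => kk i x = 0)).card : ℝ) ≤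
            m * (β * n) := mul_le_mul_of_nonneg_left h6 h7
        _ = m * β * n := by ring
    exact mul_le_mul h3 h5 (by positivity) ((by positivity : (0 : ℝ) ≤ (Y ^ 2)⁻¹).trans h3)
  -- the number of codes
  have hsum : ((X.image cd).card : ℝ) * (Y ^ 2 * (2 * (B : ℝ)) ^ (m * β * n))⁻¹ ≤ 3 ^ n := by
    rw [← nsmul_eq_mul]
    calc (X.image cd).card • (Y ^ 2 * (2 * (B : ℝ)) ^ (m * β * n))⁻¹ ≤
          ∑ u ∈ X.image cd, ∏ i, codeW m B (u i) :=
            Finset.card_nsmul_le_sum _ _ _ hwt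
      _ ≤ ∑ u ∈ Fintype.piFinset (fun _ : Fin n => T), ∏ i, codeW m B (u i) :=
          Finset.sum_le_sum_of_subset_of_nonneg hcdT fun u _ _ =>
            Finset.prod_nonneg fun i _ => code_nonneg m B _
      _ = ∏ i : Fin n, ∑ t ∈ T, codeW m B t :=
          (Finset.prod_univ_sum (fun _ : Fin n => T) (fun _ t => codeW m B t)).symm
      _ = (∑ t ∈ T, codeW m B t) ^ n := by
          rw [Finset.prod_const, Finset.card_univ, Fintype.card_fin]
      _ ≤ 3 ^ n := by
          refine pow_le_pow_left₀ (Finset.sum_nonneg fun t _ => code_nonneg m B t) ?_ n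
          rw [hT]
          exact code_total m B K hB
  -- the sum is a function of the code
  obtain ⟨F, hF⟩ : ∃ F : (Fin n → ℕ × (Fin m → ℤ)) → Fin m → ℤ, F = fun u c =>
      ∑ i : Fin n, (if (u i).1 = 0 then (u i).2 c else θ i (u i).1 c) *
        (B : ℤ) ^ (n - 1 - (i : ℕ)) := ⟨_, rfl⟩
  have himg : X.image (fun x c => ∑ i ∈ Finset.range n, dd i x c * (B : ℤ) ^ (n - 1 - i)) =
      (X.image cd).image F := by
    rw [Finset.image_image]
    refine Finset.image_congr ?_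
    intro x hx
    funext c
    show ∑ i ∈ Finset.range n, dd i x c * (B : ℤ) ^ (n - 1 - i) = F (cd x) c
    rw [hF, hcd, Finset.sum_range]
    refine Finset.sum_congr rfl fun i _ => ?_
    show dd i x c * (B : ℤ) ^ (n - 1 - (i : ℕ)) =
      (if kk i x = 0 then (if kk i x = 0 then dd i x else 0) c else θ i (kk i x) c) *
        (B : ℤ) ^ (n - 1 - (i : ℕ))
    by_cases h0 : kk i x = 0
    · rw [if_pos h0, if_pos h0]
    · rw [if_neg h0, (hdig x hx i i.2).1 h0]
  have hcard : (((X.image (fun x c => ∑ i ∈ Finset.range n, dd i x c *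
      (B : ℤ) ^ (n - 1 - i))).card : ℕ) : ℝ) ≤ ((X.image cd).card : ℝ) := by
    rw [himg]
    exact_mod_cast Finset.card_image_le
  refine hcard.trans ?_
  have hpos : (0 : ℝ) < Y ^ 2 * (2 * (B : ℝ)) ^ (m * β * n) := by positivity
  rw [← div_eq_mul_inv, div_le_iff₀ hpos] at hsum
  calc ((X.image cd).card : ℝ) ≤ 3 ^ n * (Y ^ 2 * (2 * (B : ℝ)) ^ (m * β * n)) := hsum
    _ = Y ^ 2 * 3 ^ n * (2 * (B : ℝ)) ^ (m * β * n) := by ring

end Pool.Agent.Helper70.SK
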