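import Pool.Agent.Helper70.SK.Stmts
import Pool.Agent.Helper70.SK.Lib
import Pool.Agent.Helper47.DK.E5

/-! S5U: the entropy increment as an average over the cubes. -/

namespace Pool.Agent.Helper70.SK

open Finset Pool.Agent.Helper70.DK

/-- approximation of the shifted cell -/
noncomputable def s5uT {m q : ℕ} (σ : Sy m q) (B i : ℕ) (rep : ℕ → ℕ) (l : ℕ) (ω : BS m q) :
    Fin q → ℤ :=
  fun r => (σ.yc B i (rep ω.1.1) ω.1.2 r + σ.Y B ω.1.1 (σ.co B i ω.1.2) r + ω.2 r) /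
    (B : ℤ) ^ σ.e l

theorem s5u_cent_avg {Ω α β : Type} (S : Finset Ω) (f : Ω → α) (g : Ω → β) :
    cent S f g = (∑ ω ∈ S, ent (fib S g (g ω)) f) / (S.card : ℝ) := by
  classical
  rw [st_E3 Ω α β S f g (S.image g) (fun x hx => Finset.mem_image_of_mem g hx)]
  rw [← Finset.sum_fiberwise_of_maps_to (s := S) (t := S.image g) (g := g)
    (fun x hx => Finset.mem_image_of_mem g hx), Finset.sum_div]
  refine Finset.sum_congr rfl fun c _ => ?_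
  have h1 : ∀ ω ∈ S.filter (fun ω => g ω = c), ent (fib S g (g ω)) f = ent (fib S g c) f := by
    intro ω hω
    rw [(Finset.mem_filter.1 hω).2]
  rw [Finset.sum_congr rfl h1, Finset.sum_const, nsmul_eq_mul]
  have h2 : S.filter (fun ω => g ω = c) = fib S g c := by
    ext x
    rw [e3_mem_fib, Finset.mem_filter]
  rw [h2]
  ring

theorem s5u_num {B : ℕ} {M1 : ℝ} {ei el d Q : ℕ} (hB : 2 ≤ B) (h : ei = el + d)
    (hQ : d + ⌈M1⌉₊ ≤ Q) : M1 * (B : ℝ) ^ ei / (B : ℝ) ^ Q ≤ (B : ℝ) ^ el := by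
  have hB1 : (2 : ℝ) ≤ B := by exact_mod_cast hB
  have hB0 : (0 : ℝ) < B := by linarith
  rw [div_le_iff₀ (pow_pos hB0 _)]
  have h1 : M1 ≤ (B : ℝ) ^ ⌈M1⌉₊ := by
    calc M1 ≤ (⌈M1⌉₊ : ℝ) := Nat.le_ceil M1
      _ ≤ ((2 ^ ⌈M1⌉₊ : ℕ) : ℝ) := by exact_mod_cast Nat.lt_two_pow_self.le
      _ = (2 : ℝ) ^ ⌈M1⌉₊ := by push_cast; ring
      _ ≤ (B : ℝ) ^ ⌈M1⌉₊ := pow_le_pow_left₀ (by norm_num) hB1 _
  have h2 : (B : ℝ) ^ (d + ⌈M1⌉₊) ≤ (B : ℝ) ^ Q := pow_le_pow_right₀ (by linarith) hQ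
  rw [h, pow_add]
  have h3 : (0 : ℝ) ≤ (B : ℝ) ^ el * (B : ℝ) ^ d := by positivity
  calc M1 * ((B : ℝ) ^ el * (B : ℝ) ^ d) ≤ (B : ℝ) ^ ⌈M1⌉₊ * ((B : ℝ) ^ el * (B : ℝ) ^ d) :=
        mul_le_mul_of_nonneg_right h1 h3
    _ = (B : ℝ) ^ el * (B : ℝ) ^ (d + ⌈M1⌉₊) := by rw [pow_add]; ring
    _ ≤ (B : ℝ) ^ el * (B : ℝ) ^ Q := mul_le_mul_of_nonneg_left h2 (by positivity)

theorem s5u_e {m q : ℕ} (σ : Sy m q) {l l' : ℕ} (h : l ≤ l') (hn : l' ≤ σ.n) :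
    σ.e l = σ.e l' + (l' - l) := by
  unfold Sy.e
  omega

theorem s5u_co {m q : ℕ} (σ : Sy m q) (B i : ℕ) {x x' : Fin m → ℤ}
    (h : σ.tr B i x = σ.tr B i x') : σ.co B i x = σ.co B i x' := by
  unfold Sy.co
  rw [h]

/-- the coarse cell is a function of the fine cell -/
theorem s5u_T_coarse {m q : ℕ} (σ : Sy m q) (B i : ℕ) (rep : ℕ → ℕ) {l0 l1 : ℕ}
    (h : l0 ≤ l1) (hn : l1 ≤ σ.n) (ω : BS m q) (r : Fin q) :
    s5uT σ B i rep l0 ω r = s5uT σ B i rep l1 ω r / (B : ℤ) ^ (l1 - l0) := by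
  unfold s5uT
  rw [Int.ediv_ediv_of_nonneg (by positivity), ← pow_add, ← s5u_e σ h hn]

/-- the fibre is a cube -/
theorem s5u_fib {m q : ℕ} (σ : Sy m q) (B i : ℕ) (rep : ℕ → ℕ) {l0 l1 : ℕ} (hB : 2 ≤ B)
    (h : l0 ≤ l1) (hn : l1 ≤ σ.n) (γ : ℕ) (x : Fin m → ℤ) (u : Fin q → ℤ)
    (hz : (γ, x) ∈ σ.GX B) (hu : u ∈ σ.U B) :
    ent (fib (σ.Om B) (fun ω : BS m q => (s5uT σ B i rep l0 ω, σ.tr B i ω.1.2, ω.1.1, ω.2))
      (s5uT σ B i rep l0 ((γ, x), u), σ.tr B i x, γ, u)) (s5uT σ B i rep l1) =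
    ent (Qb (σ.Zt B i (σ.tr B i x)) (σ.yc B i (rep γ)) ((B : ℤ) ^ σ.e l0)
        (fun r => (B : ℤ) ^ σ.e l0 * ((σ.yc B i (rep γ) x r + σ.Y B γ (σ.co B i x) r + u r) /
          (B : ℤ) ^ σ.e l0) - u r - σ.Y B γ (σ.co B i x) r))
      (pf (σ.yc B i (rep γ)) ((B : ℤ) ^ σ.e l1)
        (fun r => (B : ℤ) ^ σ.e l0 * ((σ.yc B i (rep γ) x r + σ.Y B γ (σ.co B i x) r + u r) /
          (B : ℤ) ^ σ.e l0) - u r - σ.Y B γ (σ.co B i x) r)) := by
  classical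
  have hBpos : (0 : ℤ) < (B : ℤ) := by exact_mod_cast (by omega : 0 < B)
  have hs0 : (0 : ℤ) < (B : ℤ) ^ σ.e l0 := pow_pos hBpos _
  have hs1 : (0 : ℤ) < (B : ℤ) ^ σ.e l1 := pow_pos hBpos _
  have hG : γ ∈ σ.G := by
    have := hz
    unfold Sy.GX at this
    exact (Finset.mem_product.1 this).1
  set s0 : ℤ := (B : ℤ) ^ σ.e l0 with hs0d
  set s1 : ℤ := (B : ℤ) ^ σ.e l1 with hs1d
  have hs01 : s0 = s1 * (B : ℤ) ^ (l1 - l0) := by
    rw [hs0d, hs1d, ← pow_add, ← s5u_e σ h hn]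
  have hbij : Set.BijOn (fun x' : Fin m → ℤ => (((γ, x'), u) : BS m q))
      ((Qb (σ.Zt B i (σ.tr B i x)) (σ.yc B i (rep γ)) s0
        (fun r => s0 * ((σ.yc B i (rep γ) x r + σ.Y B γ (σ.co B i x) r + u r) /
          s0) - u r - σ.Y B γ (σ.co B i x) r) : Finset (Fin m → ℤ)) : Set (Fin m → ℤ))
      ((fib (σ.Om B) (fun ω : BS m q => (s5uT σ B i rep l0 ω, σ.tr B i ω.1.2, ω.1.1, ω.2))
      (s5uT σ B i rep l0 ((γ, x), u), σ.tr B i x, γ, u) : Finset (BS m q)) : Set (BS m q)) := by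
    -- membership in the cube
    have hcell : ∀ x' : Fin m → ℤ, σ.tr B i x' = σ.tr B i x →
        ((∀ r, s0 * ((σ.yc B i (rep γ) x r + σ.Y B γ (σ.co B i x) r + u r) / s0) - u r -
            σ.Y B γ (σ.co B i x) r ≤ σ.yc B i (rep γ) x' r ∧
          σ.yc B i (rep γ) x' r < s0 * ((σ.yc B i (rep γ) x r + σ.Y B γ (σ.co B i x) r + u r) /
            s0) - u r - σ.Y B γ (σ.co B i x) r + s0) ↔
          s5uT σ B i rep l0 ((γ, x'), u) = s5uT σ B i rep l0 ((γ, x), u)) := by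
      intro x' hx'
      have hco := s5u_co σ B i hx'
      have hT : s5uT σ B i rep l0 ((γ, x'), u) = s5uT σ B i rep l0 ((γ, x), u) ↔
          ∀ r, (σ.yc B i (rep γ) x' r + σ.Y B γ (σ.co B i x) r + u r) / s0 =
            (σ.yc B i (rep γ) x r + σ.Y B γ (σ.co B i x) r + u r) / s0 := by
        rw [funext_iff]
        unfold s5uT
        simp only [hco]
        exact Iff.rfl
      rw [hT]
      constructor
      · intro hr r
        obtain ⟨h1, h2⟩ := hr r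
        set p := (σ.yc B i (rep γ) x r + σ.Y B γ (σ.co B i x) r + u r) / s0
        rw [Int.ediv_eq_iff_of_pos hs0]
        constructor <;> nlinarith
      · intro hr r
        have h3 := hr r
        set p := (σ.yc B i (rep γ) x r + σ.Y B γ (σ.co B i x) r + u r) / s0
        rw [Int.ediv_eq_iff_of_pos hs0] at h3
        constructor <;> nlinarith [h3.1, h3.2]
    refine ⟨?_, ?_, ?_⟩
    · intro x' hx'
      rw [Finset.mem_coe] at hx'
      unfold Qb at hx'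
      rw [Finset.mem_filter] at hx'
      obtain ⟨hx1, hx2⟩ := hx'
      unfold Sy.Zt at hx1
      rw [Finset.mem_filter] at hx1
      rw [Finset.mem_coe, e3_mem_fib]
      refine ⟨?_, ?_⟩
      · unfold Sy.Om Sy.GX
        rw [Finset.mem_product, Finset.mem_product]
        exact ⟨⟨hG, hx1.1⟩, hu⟩
      · have := (hcell x' hx1.2).1 hx2
        simp only [this, hx1.2]
    · intro a _ b _ hab
      have := (Prod.ext_iff.1 (Prod.ext_iff.1 hab).1).2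
      exact this
    · rintro ⟨⟨γ', x'⟩, u'⟩ hω
      rw [Finset.mem_coe, e3_mem_fib] at hω
      obtain ⟨h1, h2⟩ := hω
      simp only [Prod.mk.injEq] at h2
      obtain ⟨h3, h4, h5, h6⟩ := h2
      subst h5 h6
      refine ⟨x', ?_, rfl⟩
      rw [Finset.mem_coe]
      unfold Qb
      rw [Finset.mem_filter]
      refine ⟨?_, (hcell x' h4).2 h3⟩
      unfold Sy.Zt
      rw [Finset.mem_filter]
      refine ⟨?_, h4⟩
      unfold Sy.Om Sy.GX at h1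
      rw [Finset.mem_product, Finset.mem_product] at h1
      exact h1.1.2
  rw [← st_E5.2.2.2.2 _ _ _ _ _ _ (s5uT σ B i rep l1) hbij]
  apply ent_congr
  intro x' hx' x'' hx''
  unfold Qb at hx' hx''
  rw [Finset.mem_filter] at hx' hx''
  have ht' : σ.tr B i x' = σ.tr B i x := by
    have := hx'.1
    unfold Sy.Zt at this
    exact (Finset.mem_filter.1 this).2
  have ht'' : σ.tr B i x'' = σ.tr B i x := by
    have := hx''.1
    unfold Sy.Zt at this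
    exact (Finset.mem_filter.1 this).2
  have hval : ∀ y : Fin m → ℤ, σ.tr B i y = σ.tr B i x → ∀ r,
      s5uT σ B i rep l1 ((γ, y), u) r = pf (σ.yc B i (rep γ)) s1
        (fun r => s0 * ((σ.yc B i (rep γ) x r + σ.Y B γ (σ.co B i x) r + u r) / s0) - u r -
          σ.Y B γ (σ.co B i x) r) y r +
        (B : ℤ) ^ (l1 - l0) * ((σ.yc B i (rep γ) x r + σ.Y B γ (σ.co B i x) r + u r) / s0) := by
    intro y hy r
    have hco := s5u_co σ B i hy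
    unfold s5uT pf
    simp only [hco]
    set p := (σ.yc B i (rep γ) x r + σ.Y B γ (σ.co B i x) r + u r) / s0
    rw [← Int.add_mul_ediv_left _ _ hs1.ne']
    congr 1
    rw [hs01]
    ring
  constructor
  · intro hh
    funext r
    have h1 := hval x' ht' r
    have h2 := hval x'' ht'' r
    have h3 := congrFun hh r
    rw [h1, h2, h3]
  · intro hh
    funext r
    have h1 := hval x' ht' r
    have h2 := hval x'' ht'' r
    have h3 := congrFun hh r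
    rw [h1, h2] at h3
    exact add_right_cancel h3

theorem s5u_main (hUDOM : ST_UDOM) {m q : ℕ} (σ : Sy m q) (B i : ℕ) (rep : ℕ → ℕ) {l0 l1 : ℕ}
    (hB : 2 ≤ B) (h : l0 ≤ l1) (hn : l1 ≤ σ.n) :
    cent (σ.Om B) (s5uT σ B i rep l1)
      (fun ω : BS m q => (s5uT σ B i rep l0 ω, σ.tr B i ω.1.2, ω.1.1, ω.2)) =
    (∑ z ∈ σ.GX B, ∑ S ∈ Bx ((B : ℤ) ^ σ.e l0) (σ.yc B i (rep z.1) z.2),
      ent (Qb (σ.Zt B i (σ.tr B i z.2)) (σ.yc B i (rep z.1)) ((B : ℤ) ^ σ.e l0) S)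
        (pf (σ.yc B i (rep z.1)) ((B : ℤ) ^ σ.e l1) S)) /
      ((σ.GX B).card * ((B : ℝ) ^ σ.e l0) ^ q) := by
  classical
  have hBR : (0 : ℝ) < B := by exact_mod_cast (by omega : 0 < B)
  have hle : σ.e l0 ≤ σ.n + σ.a1 + σ.a3 := by unfold Sy.e; omega
  have hcardU : ((σ.U B).card : ℝ) = ((B : ℝ) ^ (σ.n + σ.a1 + σ.a3)) ^ q := by
    unfold Sy.U gr
    rw [Fintype.card_piFinset]
    have h1 : (Finset.Ico (0 : ℤ) ((B ^ (σ.n + σ.a1 + σ.a3) : ℕ) : ℤ)).card =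
        B ^ (σ.n + σ.a1 + σ.a3) := by
      rw [Int.card_Ico, sub_zero, Int.toNat_natCast]
    simp only [h1, Finset.prod_const, Finset.card_univ, Fintype.card_fin]
    push_cast
    rfl
  have hinner : ∀ z ∈ σ.GX B, ∑ u ∈ σ.U B,
      ent (fib (σ.Om B) (fun ω : BS m q => (s5uT σ B i rep l0 ω, σ.tr B i ω.1.2, ω.1.1, ω.2))
        (s5uT σ B i rep l0 (z, u), σ.tr B i z.2, z.1, u)) (s5uT σ B i rep l1) =
      ((B : ℝ) ^ (σ.n + σ.a1 + σ.a3 - σ.e l0)) ^ q *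
        ∑ S ∈ Bx ((B : ℤ) ^ σ.e l0) (σ.yc B i (rep z.1) z.2),
        ent (Qb (σ.Zt B i (σ.tr B i z.2)) (σ.yc B i (rep z.1)) ((B : ℤ) ^ σ.e l0) S)
          (pf (σ.yc B i (rep z.1)) ((B : ℤ) ^ σ.e l1) S) := by
    intro z hz
    have h1 := hUDOM q (B ^ (σ.n + σ.a1 + σ.a3)) (B ^ σ.e l0) (σ.yc B i (rep z.1) z.2)
      (σ.Y B z.1 (σ.co B i z.2))
      (fun S => ent (Qb (σ.Zt B i (σ.tr B i z.2)) (σ.yc B i (rep z.1)) ((B : ℤ) ^ σ.e l0) S)
        (pf (σ.yc B i (rep z.1)) ((B : ℤ) ^ σ.e l1) S)) (pow_pos (by omega) _)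
      (pow_dvd_pow B hle)
    have h2 : B ^ (σ.n + σ.a1 + σ.a3) / B ^ σ.e l0 = B ^ (σ.n + σ.a1 + σ.a3 - σ.e l0) :=
      Nat.pow_div hle (by omega)
    rw [h2] at h1
    push_cast at h1
    rw [← h1]
    refine Finset.sum_congr rfl fun u hu => ?_
    exact s5u_fib σ B i rep hB h hn z.1 z.2 u hz hu
  rw [s5u_cent_avg]
  have hsum : ∑ ω ∈ σ.Om B,
      ent (fib (σ.Om B) (fun ω : BS m q => (s5uT σ B i rep l0 ω, σ.tr B i ω.1.2, ω.1.1, ω.2))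
        (s5uT σ B i rep l0 ω, σ.tr B i ω.1.2, ω.1.1, ω.2)) (s5uT σ B i rep l1) =
      ((B : ℝ) ^ (σ.n + σ.a1 + σ.a3 - σ.e l0)) ^ q *
        ∑ z ∈ σ.GX B, ∑ S ∈ Bx ((B : ℤ) ^ σ.e l0) (σ.yc B i (rep z.1) z.2),
        ent (Qb (σ.Zt B i (σ.tr B i z.2)) (σ.yc B i (rep z.1)) ((B : ℤ) ^ σ.e l0) S)
          (pf (σ.yc B i (rep z.1)) ((B : ℤ) ^ σ.e l1) S) := by
    rw [Finset.mul_sum, show σ.Om B = σ.GX B ×ˢ σ.U B from rfl, Finset.sum_product]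
    exact Finset.sum_congr rfl hinner
  rw [hsum]
  have hcard : ((σ.Om B).card : ℝ) = (σ.GX B).card * ((B : ℝ) ^ (σ.n + σ.a1 + σ.a3)) ^ q := by
    rw [show σ.Om B = σ.GX B ×ˢ σ.U B from rfl, Finset.card_product]
    push_cast
    rw [hcardU]
  rw [hcard]
  have hpow : ((B : ℝ) ^ (σ.n + σ.a1 + σ.a3)) ^ q =
      ((B : ℝ) ^ (σ.n + σ.a1 + σ.a3 - σ.e l0)) ^ q * ((B : ℝ) ^ σ.e l0) ^ q := by
    rw [← mul_pow, ← pow_add, Nat.sub_add_cancel hle]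
  rw [hpow]
  have hne : ((B : ℝ) ^ (σ.n + σ.a1 + σ.a3 - σ.e l0)) ^ q ≠ 0 := by positivity
  rw [show ((σ.GX B).card : ℝ) * (((B : ℝ) ^ (σ.n + σ.a1 + σ.a3 - σ.e l0)) ^ q *
    ((B : ℝ) ^ σ.e l0) ^ q) = ((B : ℝ) ^ (σ.n + σ.a1 + σ.a3 - σ.e l0)) ^ q *
    ((σ.GX B).card * ((B : ℝ) ^ σ.e l0) ^ q) by ring]
  exact mul_div_mul_left _ _ hne

theorem st_S5U (hGEO : ST_GEO) (hDET : ST_DET) (hUDOM : ST_UDOM) : ST_S5U := by
  intro m q B R κ D hB hR hD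
  refine ⟨(⌈(m : ℝ) * (R + 1 + D)⌉₊ : ℝ) + 2 * (q * Real.log 5), by positivity, ?_⟩
  intro σ C Q i l0 l1 rep hOk hRep hil0 hl01 hl1n hQn hQ
  have hBpos : (0 : ℤ) < (B : ℤ) := by exact_mod_cast (by omega : 0 < B)
  have hlog : (0 : ℝ) ≤ Real.log 5 := Real.log_nonneg (by norm_num)
  have hql : (0 : ℝ) ≤ q * Real.log 5 := by positivity
  have hQ' : (l1 - i) + ⌈(m : ℝ) * (R + 1 + D)⌉₊ ≤ Q := by
    have h1 : ((l1 - i : ℕ) : ℝ) = (l1 : ℝ) - i := Nat.cast_sub (hil0.trans hl01)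
    have h2 : (((l1 - i) + ⌈(m : ℝ) * (R + 1 + D)⌉₊ : ℕ) : ℝ) ≤ Q := by
      rw [Nat.cast_add, h1]
      linarith
    exact_mod_cast h2
  obtain ⟨-, hgeo2, hgeo3, -⟩ := hGEO m q B R κ D C σ hB hR hD hOk
  -- the two variables are close
  have hclose : ∀ l, i ≤ l → l ≤ l1 → ∀ ω ∈ σ.Om B, ∀ r,
      |(σ.Y B ω.1.1 ω.1.2 + ω.2) r -
        (σ.yc B i (rep ω.1.1) ω.1.2 r + σ.Y B ω.1.1 (σ.co B i ω.1.2) r + ω.2 r)| ≤
        (B : ℤ) ^ σ.e l := by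
    intro l hil hll ω hω r
    have hω1 : ω.1.1 ∈ σ.G ∧ ω.1.2 ∈ σ.X B := by
      have := hω
      unfold Sy.Om Sy.GX at this
      rw [Finset.mem_product, Finset.mem_product] at this
      exact this.1
    obtain ⟨hc1, hc2, -, -⟩ := hgeo3 i (by omega) ω.1.2 hω1.2
    have h1 := hgeo2 Q rep hQn hRep ω.1.1 hω1.1 i (by omega) ω.1.2 hω1.2 (σ.co B i ω.1.2) hc1
      hc2.symm r
    have h2 := s5u_num (B := B) (M1 := (m : ℝ) * (R + 1 + D)) (ei := σ.e i) (el := σ.e l)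
      (d := l - i) (Q := Q) hB (s5u_e σ hil (by omega)) (by omega)
    have h3 := h1.trans h2
    have h4 : (((|(σ.Y B ω.1.1 ω.1.2 + ω.2) r -
        (σ.yc B i (rep ω.1.1) ω.1.2 r + σ.Y B ω.1.1 (σ.co B i ω.1.2) r + ω.2 r)| : ℤ)) : ℝ) ≤
        (((B : ℤ) ^ σ.e l : ℤ) : ℝ) := by
      push_cast
      refine le_trans (le_of_eq ?_) h3
      congr 1
      unfold Sy.yc
      rw [Pi.add_apply]
      push_cast
      ring
    exact_mod_cast h4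
  have hK : ∀ l, i ≤ l → l ≤ l1 →
      cent (σ.Om B) (σ.C B l) (fun ω => (s5uT σ B i rep l ω, σ.tr B i ω.1.2, ω.1.1, ω.2)) ≤
        q * Real.log 5 ∧
      cent (σ.Om B) (s5uT σ B i rep l) (fun ω => (σ.C B l ω, σ.tr B i ω.1.2, ω.1.1, ω.2)) ≤
        q * Real.log 5 := by
    intro l hil hll
    have hs : (0 : ℤ) < (B : ℤ) ^ σ.e l := pow_pos hBpos _
    have h5 : (2 : ℝ) * ((1 : ℕ) : ℝ) + 3 = 5 := by norm_num
    constructor
    · have h := hDET.1 (BS m q) ((Fin m → ℤ) × ℕ × (Fin q → ℤ)) q 1 (σ.Om B)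
        (fun ω => σ.Y B ω.1.1 ω.1.2 + ω.2)
        (fun ω r => σ.yc B i (rep ω.1.1) ω.1.2 r + σ.Y B ω.1.1 (σ.co B i ω.1.2) r + ω.2 r)
        (fun ω => (σ.tr B i ω.1.2, ω.1.1, ω.2)) (fun _ _ => 0) ((B : ℤ) ^ σ.e l) hs
        (by
          intro ω hω r
          have := hclose l hil hll ω hω r
          rw [sub_zero]
          simpa using this)
      rw [h5] at h
      exact h
    · have h := hDET.1 (BS m q) ((Fin m → ℤ) × ℕ × (Fin q → ℤ)) q 1 (σ.Om B)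
        (fun ω r => σ.yc B i (rep ω.1.1) ω.1.2 r + σ.Y B ω.1.1 (σ.co B i ω.1.2) r + ω.2 r)
        (fun ω => σ.Y B ω.1.1 ω.1.2 + ω.2)
        (fun ω => (σ.tr B i ω.1.2, ω.1.1, ω.2)) (fun _ _ => 0) ((B : ℤ) ^ σ.e l) hs
        (by
          intro ω hω r
          have := hclose l hil hll ω hω r
          rw [sub_zero, abs_sub_comm]
          simpa using this)
      rw [h5] at h
      exact h
  -- comparison
  have hA : σ.hh B i l0 ≤ cent (σ.Om B) (s5uT σ B i rep l0)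
      (fun ω => (σ.tr B i ω.1.2, ω.1.1, ω.2)) + q * Real.log 5 := by
    have h1 := cent_change_left (σ.Om B) (σ.C B l0) (s5uT σ B i rep l0)
      (fun ω => (σ.tr B i ω.1.2, ω.1.1, ω.2))
    have h2 := (hK l0 hil0 hl01).1
    unfold Sy.hh
    linarith
  have hBb : cent (σ.Om B) (s5uT σ B i rep l1)
      (fun ω => (σ.tr B i ω.1.2, ω.1.1, ω.2)) ≤ σ.hh B i l1 + q * Real.log 5 := by
    have h1 := cent_change_left (σ.Om B) (s5uT σ B i rep l1) (σ.C B l1)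
      (fun ω => (σ.tr B i ω.1.2, ω.1.1, ω.2))
    have h2 := (hK l1 (hil0.trans hl01) le_rfl).2
    unfold Sy.hh
    linarith
  have hCc : cent (σ.Om B) (s5uT σ B i rep l1) (fun ω => (σ.tr B i ω.1.2, ω.1.1, ω.2)) =
      cent (σ.Om B) (s5uT σ B i rep l0) (fun ω => (σ.tr B i ω.1.2, ω.1.1, ω.2)) +
      cent (σ.Om B) (s5uT σ B i rep l1)
        (fun ω => (s5uT σ B i rep l0 ω, σ.tr B i ω.1.2, ω.1.1, ω.2)) := by
    rw [← cent_chain]
    apply cent_congr_left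
    intro x _ y _ _
    constructor
    · intro e
      exact (Prod.ext_iff.1 e).2
    · intro e
      refine Prod.ext ?_ e
      funext r
      have h1 := s5u_T_coarse σ B i rep hl01 hl1n x r
      have h2 := s5u_T_coarse σ B i rep hl01 hl1n y r
      simp only at h1 h2 ⊢
      rw [h1, h2, e]
  have hM := s5u_main hUDOM σ B i rep hB hl01 hl1n
  rw [← hM]
  have hceil : (0 : ℝ) ≤ (⌈(m : ℝ) * (R + 1 + D)⌉₊ : ℝ) := Nat.cast_nonneg _
  linarith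

end Pool.Agent.Helper70.SK
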